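import Pool.Agent.W42.RG.Defs

/-!
Project LX (helper940 for helper42): recurrence along a bounded orbit (S_REC).
-/

set_option autoImplicit false

namespace Pool.Agent.W940.LX

open Finset Filter Topology Pool.Agent.W42.RG

theorem t_REC : S_REC := by
  intro V M _ _ _ _ br Φ hI p ψ W r hb
  have : ProperSpace V := FiniteDimensional.proper ℝ V
  have hK : IsCompact ((fun Y => Φ Y p) '' Metric.closedBall (0 : V) r) :=
    (isCompact_closedBall (0 : V) r).image (hI.cont p)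
  have hx : ∀ n : ℕ, Φ ((n : ℝ) • W) ψ ∈ (fun Y => Φ Y p) '' Metric.closedBall (0 : V) r := by
    intro n
    obtain ⟨Y, hY, h⟩ := hb n
    exact ⟨Y, by simpa using hY, h.symm⟩
  obtain ⟨a, -, φ, hφ, hlim⟩ := hK.tendsto_subseq hx
  have key : ∀ n : ℕ, ∃ t : ℝ, (n : ℝ) ≤ t ∧ dist (Φ (t • W) ψ) ψ < 1 / ((n : ℝ) + 1) := by
    intro n
    have hpos : (0 : ℝ) < 1 / ((n : ℝ) + 1) / 2 := by positivity
    obtain ⟨N, hN⟩ := (Metric.tendsto_atTop.1 hlim) _ hpos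
    have h1 := hN N le_rfl
    have h2 := hN (n + N) (by omega)
    have h3 : n + φ N ≤ φ (n + N) := hφ.add_le_nat n N
    have h3' : (n : ℝ) + φ N ≤ φ (n + N) := by exact_mod_cast h3
    refine ⟨(φ (n + N) : ℝ) - φ N, by linarith, ?_⟩
    have h4 : Φ ((φ (n + N) : ℝ) • W) ψ =
        Φ ((φ N : ℝ) • W) (Φ (((φ (n + N) : ℝ) - φ N) • W) ψ) := by
      rw [← hI.line]
      congr 2
      ring
    have h5 : dist (Φ (((φ (n + N) : ℝ) - φ N) • W) ψ) ψ =
        dist (Φ ((φ (n + N) : ℝ) • W) ψ) (Φ ((φ N : ℝ) • W) ψ) := by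
      rw [h4, hI.iso]
    rw [h5]
    simp only [Function.comp_def] at h1 h2
    calc dist (Φ ((φ (n + N) : ℝ) • W) ψ) (Φ ((φ N : ℝ) • W) ψ)
        ≤ dist (Φ ((φ (n + N) : ℝ) • W) ψ) a + dist (Φ ((φ N : ℝ) • W) ψ) a :=
          dist_triangle_right _ _ _
      _ < 1 / ((n : ℝ) + 1) / 2 + 1 / ((n : ℝ) + 1) / 2 := add_lt_add h2 h1
      _ = 1 / ((n : ℝ) + 1) := by ring
  choose t ht1 ht2 using key
  refine ⟨t, tendsto_atTop_mono ht1 tendsto_natCast_atTop_atTop, ?_⟩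
  rw [tendsto_iff_dist_tendsto_zero]
  exact squeeze_zero (fun _ => dist_nonneg) (fun n => (ht2 n).le) tendsto_one_div_add_atTop_nhds_zero_nat

end Pool.Agent.W940.LX
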